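import Pool.Agent.U192.TE.Main
import Pool.Agent.TH466.QG.Low

/-!
# Tensor differentials on the varieties which correspond to a positive variety

Let `X` be any projective variety over `ℂ`, of dimension `d ≥ 1`, and let `f i : X ⇢ ℙ^{N i}`, `i < k`,
be rational maps such that `X` is mapped birationally into the product of the projective spaces. Let
`H i` be the pull-back of a hyperplane to a model of `X`. For instance `k = 1` and `X ⊆ ℙ^N`.

Let `W` be a projective variety of any dimension `n ≥ d`, and let `V` be a variety with a dominant
rational map `V ⇢ W` of finite degree and with any dominant rational map `V ⇢ X`. So `V` gives a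
correspondence between `W` and `X`. Let `W_i` be the closure of the image of `V` in
`W × ℙ^{N 0} × ... × ℙ^{N (i - 1)}` and let `δ i` be the degree of `W_{i + 1}` over `W_i`. Let `r` be the
product of all `δ i`, the degree over `W` of the image of `V` in `W × X`: this is the number of the
points of `X` which correspond to a general point of `W`.

**Theorem.** Suppose that `κ(X, K_X - 2 ∑ (δ i - 1) H i) ≥ a ≥ 0`: for some `m ≥ 1` there are `a + 1`
sections of `m (K_X - 2 ∑ (δ i - 1) H i)` with algebraically independent ratios. Then there are a
holomorphic tensor differential `T ≠ 0` of degree `d m r` on the smooth projective models of `W`, and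
algebraically independent rational functions `g 0, ..., g (a - 1)` on `W`, such that all `(g j) T` are
holomorphic, too. In particular `H⁰(W, (Ω¹_W)^{⊗ d m r}) ≠ 0`, and the saturated subsheaf of rank one of
`(Ω¹_W)^{⊗ d m r}` which is generated by `T` has Kodaira dimension at least `a`.

So Q1 holds for all these varieties `W`: they are not rationally connected, and they have tensor
differentials. Conversely, the theorem says that a variety `W` without tensor differentials, which should
be rationally connected by Q1, has the following property of the rationally connected varieties:
`κ(X, K_X - 2 ∑ (δ i - 1) H i) = - ∞` for all correspondences between `W` and all varieties `X ⊆ ℙ^N`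
of positive dimension. For instance (`k = 1`) let `X ⊆ ℙ^{d + 1}` be a smooth hypersurface of degree
`D`, or one with canonical singularities. Then no variety `W` without tensor differentials has a
correspondence to `X` with `r ≤ (D - d) / 2`. If the canonical bundle of `W` is numerically trivial, for
instance if `W` is an abelian variety of any dimension, then the tensor differentials are parallel, so
that `g` is constant if `T` and `g T` are holomorphic; so the theorem with `a = 1` says that no such
`W` has a correspondence to `X` with `r < (D - d) / 2`. (Such examples are not part of the Lean proof.)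

There need not be canonical forms on `X`, and the traces of pluricanonical forms are not regular, so
the known argument with the traces of canonical forms does not apply. No condition is imposed on the
map `V ⇢ X` and on its fibres. Some condition for `X` is necessary: every variety `X` of dimension `n`
corresponds to `W = ℙ^n`.

Proof. Let `M` be the function field of the image of `V` in `W × X`. Let `θ = a (dx_1 ∧ ... ∧ dx_d) ^ m` be
an `m`-canonical form on `X`. For vector fields `v_1, ..., v_d` on `W` the number
`N_{M / ℂ(W)} (θ (v_1, ..., v_d)) Δ ^ m`, where `Δ` is the discriminant of a basis of `M` over `ℂ(W)`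
consisting of monomials in the coordinates of `X`, is regular at a prime divisor `P` over `W` if the
`v_i` belong to a linear space of constant combinations of a regular frame: the orders of the minors of
the matrix which compares the regular vector fields below and above are at least `1 - e`, `e` being the
ramification index, and this is compensated by the zeros of the discriminant, while the poles of the
discriminant are compensated by the zeros of `θ` along `2 ∑ (δ i - 1) H i`. This number is a product of
`m r` factors, each of which is an alternating form in `v_1, ..., v_d`; the symmetrisation of the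
corresponding multilinear form in `d m r` vector fields is the alternating sum of the numbers for
partial sums of the vector fields, so it has values in `ℂ(W)` which are regular on regular vector
fields. The norms of the numbers `c - x`, `c ∈ ℂ`, for the ratios `x` of the sections, generate a field
over which all `x` are algebraic.
-/

set_option autoImplicit false
set_option linter.overlappingInstances false

open FF Module Pool.Agent.W602.GT

namespace Pool.Agent.Results.MP_4329d7_ag.CorrespondenceTensors

/-- The order of the poles along `P` of the functions in the finite set `Y`: the multiplicity along `P`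
of the pull-back of a hyperplane under the rational map with the coordinates `1` and `Y`. -/
noncomputable def poleOrder {U : Type} [Field U] [Algebra ℂ U] (Y : Finset U) (P : Place ℂ U) : ℕ :=
  Y.sup fun z => (-P.ord z).toNat

/-- The functions on `X` as functions on `V`. -/
def onV {L : Type} [Field L] [Algebra ℂ L] {U : IntermediateField ℂ L} (Y : Finset U) : Finset L :=
  Y.map (Function.Embedding.subtype fun z => z ∈ U)

/-- The function field of the image `W_j` of `V` in the product of `W` and the first `j` projective
spaces. `K` and `L` are the function fields of `W` and `V`, and `X i` is the set of the affine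
coordinates of the `i`-th rational map. -/
def Img {L : Type} [Field L] [Algebra ℂ L] {U : IntermediateField ℂ L} (K : Type) [Field K]
    [Algebra K L] {k : ℕ} (X : Fin k → Finset U) (j : ℕ) : IntermediateField K L :=
  IntermediateField.adjoin K {z | ∃ i : Fin k, i.val < j ∧ z ∈ onV (X i)}

/-- The degree `δ i` of `W_{i + 1}` over `W_i`. -/
noncomputable def deg {L : Type} [Field L] [Algebra ℂ L] {U : IntermediateField ℂ L} (K : Type)
    [Field K] [Algebra K L] {k : ℕ} (X : Fin k → Finset U) (i : Fin k) : ℕ :=
  finrank (Img K X i) (IntermediateField.adjoin (Img K X i) (onV (X i) : Set L))

/-- The degree `r` over `W` of the image of `V` in the product of `W` and `X`, the product of all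
`δ i`. -/
noncomputable def totalDegree {L : Type} [Field L] [Algebra ℂ L] {U : IntermediateField ℂ L}
    (K : Type) [Field K] [Algebra K L] {k : ℕ} (X : Fin k → Finset U) : ℕ :=
  finrank K (Img K X k)

/-- `θ` is a section of `m K_X - H`, where `U` is the function field of the variety `X`, of dimension
`d`, and `H` has the multiplicity `b P` at `P`: the order of the `m`-canonical form `θ` along each prime
divisor `P` over `X` is at least `b P`. -/
def IsSection {U : Type} [Field U] [Algebra ℂ U] (d m : ℕ) (b : Place ℂ U → ℤ)
    (θ : (Fin d → Derivation ℂ U U) → U) : Prop :=
  IsPluri m θ ∧ ∀ P : Place ℂ U, Divisorial d P → ∀ G : Fin d → Derivation ℂ U U,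
    (∀ i, DerReg P (G i)) → θ G ≠ 0 → b P ≤ P.ord (θ G)

/-- The rational tensor differential `T` of degree `N` on the variety `W` of dimension `n` with the
function field `K` is holomorphic on the smooth projective models of `W`: its values on vector fields
which are regular along a prime divisor `P` over `W` are regular along `P`. -/
def IsHolomorphic {K : Type} [Field K] [Algebra ℂ K] (n : ℕ) {N : ℕ}
    (T : MultilinearMap K (fun _ : Fin N => Derivation ℂ K K) K) : Prop :=
  ∀ P : Place ℂ K, Divisorial n P → ∀ D : Fin N → Derivation ℂ K K, (∀ i, DerReg P (D i)) →
    P.Reg (T D)

/-- **Tensor differentials and correspondences.** Let `L` be the function field of a variety `V`, of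
dimension `n`, and let `U ⊆ L` be the function field of a variety `X` of dimension `d ≥ 1`, generated by
the finitely many coordinates in the sets `X i`. Let `K ⊆ L` be the function field of a variety `W`,
the extension being finite. Suppose that there are sections `θ 0, ..., θ a` of
`m (K_X - 2 ∑ (δ i - 1) H i)`, `m ≥ 1`, whose ratios are algebraically independent (for `a = 0`: that
there is a section `θ 0 ≠ 0`). Then there are a holomorphic tensor differential `T ≠ 0` of the degree
`d m r ≥ 1` on `W`, `r` being the degree over `W` of the image of `V` in `W × X`, and algebraically
independent rational functions `g 0, ..., g (a - 1)` on `W` such that all `(g j) T` are holomorphic. -/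
theorem result {L : Type} [Field L] [Algebra ℂ L] [Algebra.EssFiniteType ℂ L]
    (U : IntermediateField ℂ L) {d n m k a : ℕ} (hd : 1 ≤ d) (hU : Algebra.trdeg ℂ U = d)
    (hL : Algebra.trdeg ℂ L = n)
    (X : Fin k → Finset U) (hX : IntermediateField.adjoin ℂ (⋃ i, (X i : Set U)) = ⊤)
    (K : Type) [Field K] [Algebra ℂ K] [Algebra K L] [IsScalarTower ℂ K L] [FiniteDimensional K L]
    (hm : 1 ≤ m) (θ : Fin (a + 1) → (Fin d → Derivation ℂ U U) → U)
    (hθ : ∀ j, IsSection d m
      (fun P => ∑ i, 2 * m * ((deg K X i : ℤ) - 1) * poleOrder (X i) P) (θ j))
    (D : Fin d → Derivation ℂ U U) (hD : θ 0 D ≠ 0)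
    (hind : AlgebraicIndependent ℂ fun j : Fin a => θ j.succ D / θ 0 D) :
    1 ≤ d * m * totalDegree K X ∧
    ∃ (T : MultilinearMap K (fun _ : Fin (d * m * totalDegree K X) => Derivation ℂ K K) K)
      (g : Fin a → K), T ≠ 0 ∧ AlgebraicIndependent ℂ g ∧ IsHolomorphic n T ∧
      ∀ j, IsHolomorphic n (g j • T) := by
  have hK : Algebra.EssFiniteType ℂ K := Pool.Agent.TH466.QG.ess_below (K := L)
  have hn : Algebra.trdeg ℂ K = (n : ℕ) := Pool.Agent.Y184.NT.trdeg_below (K := L) hL
  refine ⟨Nat.mul_pos (Nat.mul_pos hd hm) finrank_pos, ?_⟩
  refine U192.TE.corr_main (K := K) U X hX hU hn (fun j => (hθ j).1) (fun j v hv G hG => ?_) hD hind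
  by_cases h0 : θ j G = 0
  · exact Or.inl h0
  · exact Or.inr ((hθ j).2 v hv G hG h0)

end Pool.Agent.Results.MP_4329d7_ag.CorrespondenceTensors
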