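import Pool.Agent.U243.ACFBound

/-!
# Tensor differentials up to a finite order

The problem file says that the known proof in dimension three uses the vanishing of all tensor differentials and that no finite set
of orders is available. Here: for every bounded family of smooth projective varieties of dimension at most three there is `M` such
that the vanishing of the tensor differentials of order at most `M` implies rational connectedness, with a very free rational curve of
degree at most `M`, and the same holds over all algebraically closed fields of characteristic `p > M`. In dimension `d` this is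
equivalent to Q1, also if it is required only over the algebraic closure of `ℚ`, or only for infinitely many `p`.

`TensorTheory` collects the known facts used.

* Projective varieties are given by the coefficients of their equations: `V(a) ⊂ ℙⁿ` is the scheme defined by a system of `n²`
  homogeneous polynomials of degree at most `n`, with coefficients `a` (every projective scheme is of this form for all large `n`).
* `var_fo`, `van_fo`, `free_fo`: for fixed `n`, `m`, `c` smoothness and irreducibility, the vanishing of `H⁰` of a tensor power of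
  the cotangent bundle, and the existence of a very free rational curve of degree at most `c` are constructible conditions over `ℤ`
  on the coefficients, so they are first-order conditions over all algebraically closed fields.
* `rc_iff` (Kollár, Miyaoka, Mori): a smooth projective complex variety is rationally connected if and only if it has a very free
  rational curve, that is `f : ℙ¹ → X` with `f^* T_X` ample.
* `low` (Kollár, Miyaoka, Mori 1992): Q1 is true in dimension at most three.
-/

set_option autoImplicit false

namespace Pool.Agent.Results.MP_4329d7_ag.FiniteOrder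

open Pool.Agent.U243.ACF

/-- Projective varieties with tensor differentials and very free rational curves; the known facts that are used. -/
structure TensorTheory where
  /-- the number of the coefficients of `n²` polynomials of degree at most `n` in `n + 1` variables -/
  r : ℕ → ℕ
  /-- `Var d n K a`: the polynomials are homogeneous and define a smooth irreducible variety `V(a) ⊂ ℙⁿ` of dimension `d` -/
  Var : ℕ → ∀ (n : ℕ) (K : Type) [Field K], (Fin (r n) → K) → Prop
  /-- `Van m n K a`: `H⁰(V(a), (Ω¹)^{⊗m}) = 0` (for smooth `V(a)`) -/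
  Van : ℕ → ∀ (n : ℕ) (K : Type) [Field K], (Fin (r n) → K) → Prop
  /-- `Free c n K a`: there is a very free rational curve `f : ℙ¹ → V(a)` of degree at most `c` (for smooth `V(a)`) -/
  Free : ℕ → ∀ (n : ℕ) (K : Type) [Field K], (Fin (r n) → K) → Prop
  /-- `V(a)` is rationally connected, for complex `a` -/
  RC : ∀ n : ℕ, (Fin (r n) → ℂ) → Prop
  var_fo : ∀ d n, FO1 (Var d n)
  van_fo : ∀ n, FO (fun m => Van m n)
  free_fo : ∀ n, FO (fun c => Free c n)
  free_mono : ∀ n, Incr (fun c => Free c n)
  rc_iff : ∀ d n a, Var d n ℂ a → (RC n a ↔ ∃ c, Free c n ℂ a)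
  low : ∀ d ≤ 3, ∀ n a, Var d n ℂ a → (∀ m, 0 < m → Van m n ℂ a) → RC n a

variable (S : TensorTheory)

/-- Q1 in dimension `d` -/
def Q1Dim (d : ℕ) : Prop := ∀ n a, S.Var d n ℂ a → (∀ m, 0 < m → S.Van m n ℂ a) → S.RC n a

/-- `V(a)` is a smooth variety of dimension `d` without tensor differentials of the orders `1, ..., M` -/
def VanUpTo (d n M : ℕ) (K : Type) [Field K] (a : Fin (S.r n) → K) : Prop :=
  S.Var d n K a ∧ ∀ m, 0 < m → m ≤ M → S.Van m n K a

/-- in every bounded family finitely many orders suffice, over all algebraically closed fields of characteristic zero or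
greater than `M`, with a very free rational curve of degree at most `M` -/
def FiniteOrderForAllFields (d : ℕ) : Prop :=
  ∀ n, ∃ M, ∀ (K : Type) [Field K], IsAlgClosed K → (CharZero K ∨ ∃ p, M < p ∧ p.Prime ∧ CharP K p) →
    ∀ a : Fin (S.r n) → K, VanUpTo S d n M K a → S.Free M n K a

variable {S}

lemma engine (d n : ℕ) : List.TFAE [
    ∀ a : Fin (S.r n) → ℂ, (∀ e, VanUpTo S d n e ℂ a) → ∃ m, S.Free m n ℂ a,
    ∃ N, ∀ a : Fin (S.r n) → ℂ, VanUpTo S d n N ℂ a → S.Free N n ℂ a,
    ∃ N, ∀ (K : Type) [Field K], IsAlgClosed K → (CharZero K ∨ ∃ p, N < p ∧ p.Prime ∧ CharP K p) →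
      ∀ a : Fin (S.r n) → K, VanUpTo S d n N K a → S.Free N n K a,
    ∃ N, ∀ a : Fin (S.r n) → AlgebraicClosure ℚ, VanUpTo S d n N (AlgebraicClosure ℚ) a →
      S.Free N n (AlgebraicClosure ℚ) a,
    ∃ N, ∀ B, ∃ p, B < p ∧ p.Prime ∧ ∃ (K : Type) (_ : Field K), IsAlgClosed K ∧ CharP K p ∧
      ∀ a : Fin (S.r n) → K, VanUpTo S d n N K a → S.Free N n K a] :=
  tfae (r := S.r n) (P := fun M K _ a => VanUpTo S d n M K a) (Q := fun c => S.Free c n)
  (FO_conj (S.var_fo d n) (S.van_fo n)) (S.free_fo n) Decr_conj (S.free_mono n)

lemma start {d : ℕ} (h : Q1Dim S d) (n : ℕ) (a : Fin (S.r n) → ℂ) (ha : ∀ e, VanUpTo S d n e ℂ a) :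
    ∃ m, S.Free m n ℂ a :=
  (S.rc_iff d n a (ha 0).1).1 (h n a (ha 0).1 fun m hm => (ha m).2 m hm le_rfl)

lemma back {d : ℕ} (h : ∀ (n : ℕ) (a : Fin (S.r n) → ℂ), (∀ e, VanUpTo S d n e ℂ a) → ∃ m, S.Free m n ℂ a) :
    Q1Dim S d := fun n a h1 h2 =>
  (S.rc_iff d n a h1).2 (h n a fun _ => ⟨h1, fun m h3 _ => h2 m h3⟩)

variable (S)

/-- In every dimension `d` the following are equivalent. (1) Q1 in dimension `d`. (2) For all `n` there is `M` such that every
smooth complex `V(a) ⊂ ℙⁿ` of dimension `d` without tensor differentials of order at most `M` is rationally connected. (3) The same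
over all algebraically closed fields of characteristic zero or `p > M`, with a very free rational curve of degree at most `M`.
(4) The same over the algebraic closure of `ℚ`. (5) The same over some algebraically closed field of characteristic `p`, for
infinitely many `p`. All of this is true if `d ≤ 3`. -/
theorem result :
    (∀ d : ℕ, List.TFAE [
      Q1Dim S d,
      ∀ n, ∃ M, ∀ a : Fin (S.r n) → ℂ, VanUpTo S d n M ℂ a → S.RC n a,
      FiniteOrderForAllFields S d,
      ∀ n, ∃ M, ∀ a : Fin (S.r n) → AlgebraicClosure ℚ, VanUpTo S d n M (AlgebraicClosure ℚ) a →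
        S.Free M n (AlgebraicClosure ℚ) a,
      ∀ n, ∃ M, ∀ B, ∃ p, B < p ∧ p.Prime ∧ ∃ (K : Type) (_ : Field K), IsAlgClosed K ∧ CharP K p ∧
        ∀ a : Fin (S.r n) → K, VanUpTo S d n M K a → S.Free M n K a]) ∧
    ∀ d ≤ 3, FiniteOrderForAllFields S d := by
  refine ⟨fun d => ?_, fun d hd n => ?_⟩
  · tfae_have 1 → 3 := fun h n => ((engine d n).out 0 2).1 (start h n)
    tfae_have 3 → 2 := by
      intro h n
      obtain ⟨M, hM⟩ := h n
      exact ⟨M, fun a ha => (S.rc_iff d n a ha.1).2 ⟨M, hM ℂ inferInstance (Or.inl inferInstance) a ha⟩⟩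
    tfae_have 2 → 1 := by
      intro h n a h1 h2
      obtain ⟨M, hM⟩ := h n
      exact hM a ⟨h1, fun m h3 _ => h2 m h3⟩
    tfae_have 3 → 4 := fun h n => ((engine d n).out 2 3).1 (h n)
    tfae_have 4 → 1 := fun h => back fun n => ((engine d n).out 3 0).1 (h n)
    tfae_have 3 → 5 := fun h n => ((engine d n).out 2 4).1 (h n)
    tfae_have 5 → 1 := fun h => back fun n => ((engine d n).out 4 0).1 (h n)
    tfae_finish
  · exact ((engine d n).out 0 2).1 (start (S.low d hd) n)

end Pool.Agent.Results.MP_4329d7_ag.FiniteOrder
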