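import Pool.Agent.U598.PS.Forms
import Pool.Agent.U598.PS.Cyc
import Pool.Agent.N162.GP.Facts2

/-!
# Holomorphic forms on varieties which correspond to complete intersections

Let `V ⊂ ℙ^p` be a smooth complete intersection of dimension `n ≥ 1` of hypersurfaces of degrees
`δ_1, …, δ_q`, with `K_V = O(m)`, `m = ∑ δ_i - p - 1 ≥ 0`; there is no condition on the equations or on
the degrees. More generally, `V` can be any irreducible component of an intersection of hypersurfaces of
degrees at most `δ_1, …, δ_q` in `ℙ^p` which has the regular canonical forms `P(x) ω₀` for all monomials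
`P` of degree `m`, where `∑ δ_i ≤ m + p + 1` (`CutOut`). Let `Y` be any variety, of any dimension
`w ≥ n`, with a dominant rational map `Y ⇢ V`; no condition is imposed on this map. Let `Y ⇢ W` be a
dominant rational map of finite degree `r` to any variety `W`. So, `Y` is a correspondence between `W`
and `V`, with `r` points over a general point of `W`, and `dim W ≥ dim V`.

**Theorem.** Let `C = (2 p) ^ q (4 p) ^ (p (p + 1) / 2)`. If `C k r < δ_1 ⋯ δ_q` then the smooth projective
models of `W` have at least `k` linearly independent holomorphic `n`-forms, `h⁰(W, Ω^n) ≥ k`. In particular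
`H⁰(W, (Ω¹)^{⊗ n}) ≠ 0` if `C r < δ_1 ⋯ δ_q`.

So the varieties `W` are not rationally connected, and Q1 holds for all of them: no correspondence of
degree less than a positive constant, which depends only on `p`, times the degree of `V` can destroy the
forms of `V`. Since the holomorphic forms of `W` come from the base of the maximal rationally connected
fibration of `W`, the dimension of this base is at least `n`.

The starting result `MP_4329d7_ag.FormsOnImages` is this theorem with the bound
`k r < (N + 1) (m + 2 - N)`, where `7 N + 4 ≤ m`, `p N < m + p + 1` and `max δ_i ≤ m + 2 - N`; this is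
of the order `m ^ 2` at most. The bound here is of the order of the degree `δ_1 ⋯ δ_q` of `V`, which is the
natural one: `V` has maps of degree `δ_1 ⋯ δ_q` to `ℙ^n`, and `Y = V × T` can be mapped to a rational
variety with this degree. (For `k` forms: `h⁰(V, K_V)` is of the order of `m ^ n deg V`.)

## Proof

The trace from `Y` to `W` of the pull-back of a regular `n`-form is a regular `n`-form. Suppose that the
traces of the pull-backs of all `P(x) ω₀` are zero. The values of the traces on suitable vector fields
give a relation `∑ κ(ρ) P(ρ x) = 0` between the values of the forms `P` of degree `m` at the points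
`ρ : K → Ω` of `V` below the points of `Y` over the generic point of `W`, with coefficients which are not
zero, as in `FormsOnImages`; for `k` forms one takes `k` independent generic points of `W`. These at most
`k r` points are generic points of `V`. But fewer than `deg V / C` generic points of `V` impose
independent conditions on the forms of degree `m` (`Pool/Agent/U598/PS/Inx.lean`):

For a finite set `Γ` of points in the affine space over `Ω`, a point `ρ ∈ Γ` and an integer `e` let
`D(ρ, e)` be the dimension at `ρ` of the zero set of all polynomials of degree at most `e` which vanish on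
`Γ`, and let `e_1(ρ) ≥ e_2(ρ) ≥ ⋯` be the jumps. The point `ρ` is an isolated zero of systems of equations
which vanish on `Γ` or on `V`, whose degrees are some of the numbers `e_j(ρ) + 1` and some of the
`δ_i`, or `V` is covered by a family of positive-dimensional varieties through the points of `Γ`. In both
cases a relation of degree `m` between the values at the points of `Γ` gives
`m < ∑ (degrees - 1)`, by the theorem on residues of Cayley, Bacharach, Scheja and Storch. These
inequalities imply `∏ δ_i ≤ (2 p) ^ q ∏ e_j(ρ)`, and `∏ e_j(ρ) ≤ (4 p) ^ (p (p + 1) / 2) |Γ|` for one of the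
points, because the Hilbert function of `Γ` grows (Noether's normalization).
-/

set_option autoImplicit false

open FF MvPolynomial Pool.Agent.W602.GT Pool.Agent.N162.BC Pool.Agent.N162.GP

namespace Pool.Agent.Results.MP_4329d7_ag.FormsDegreeOrder

/-- `K` is the function field of a variety `V` of dimension `n` in projective `(M + 1)`-space, `x` is
its generic point, `x 0 = 1`. The variety is an irreducible component of an intersection of
hypersurfaces of degrees at most `δ i` (in the affine space of the points with `x 0 = 1`), where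
`∑ δ i ≤ m + M + 2`, and there is a nonzero rational canonical form `ω₀` on `V` such that `P(x) ω₀` is a
global section of the canonical bundle of the smooth projective models of `V` for all monomials `P` of
degree `m`. -/
structure CutOut {M q : ℕ} {K : Type} [Field K] [Algebra ℂ K] (n m : ℕ) (δ : Fin q → ℕ)
    (x : Fin (M + 2) → K) : Prop where
  one : x 0 = 1
  gen : IntermediateField.adjoin ℂ (Set.range x) = ⊤
  dim : Algebra.trdeg ℂ K = n
  sum : ∑ i, δ i ≤ m + M + 2
  component : ∃ F : Fin q → MvPolynomial (Fin (M + 2)) ℂ, (∀ i, (F i).totalDegree ≤ δ i) ∧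
    RingHom.ker (aeval x : MvPolynomial (Fin (M + 2)) ℂ →ₐ[ℂ] K) ∈
      (Ideal.span (insert (X 0 - 1) (Set.range F))).minimalPrimes
  forms : ∃ ω₀ : (Fin n → Derivation ℂ K K) → K, IsPluri 1 ω₀ ∧ (∃ D, ω₀ D ≠ 0) ∧
    ∀ f : Fin m → Fin (M + 2), GlobalForm n (fun D => (∏ k, x (f k)) * ω₀ D)

/-- `h⁰ (W, Ω^n) ≥ k` for the smooth projective varieties `W` of dimension `w` with the function field
`L`: there are `k` holomorphic forms of degree `n` which are linearly independent over `ℂ`. A form of
degree `n` is an alternating function of `n` rational vector fields; it is holomorphic if it takes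
vector fields regular at `P` to functions regular at `P`, for all prime divisors `P`. -/
def HasForms (L : Type) [Field L] [Algebra ℂ L] (w n k : ℕ) : Prop :=
  ∃ η : Fin k → AlternatingMap L (Derivation ℂ L L) L (Fin n), LinearIndependent ℂ η ∧
    ∀ j, ∀ P : Place ℂ L, Divisorial w P → ∀ D : Fin n → Derivation ℂ L L,
      (∀ i, DerReg P (D i)) → P.Reg (η j D)

/-- `H⁰ (W, (Ω¹) ^ ⊗ n) = 0` for the smooth projective varieties `W` of dimension `w` with the
function field `L`. -/
def NoTensors (L : Type) [Field L] [Algebra ℂ L] (w n : ℕ) : Prop :=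
  ∀ T : MultilinearMap L (fun _ : Fin n => Derivation ℂ L L) L,
    (∀ P : Place ℂ L, Divisorial w P → ∀ D : Fin n → Derivation ℂ L L, (∀ j, DerReg P (D j)) →
      P.Reg (T D)) → T = 0

/-- **Holomorphic forms on the varieties which correspond to `V`.** (1) A smooth complete intersection
`V` of dimension `n ≥ 1` of hypersurfaces of the degrees `δ i` in projective `(M + 1)`-space is such a
variety for `m = ∑ δ i - M - 2`. (2) Let `V` be any such variety of dimension `n ≥ 1` in projective
`(M + 1)`-space, with the function field `K`. Let `R ⊇ K` be the function field of a variety `Y` which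
dominates `V`, and let `L ⊆ R` be the function field of a variety `W` of dimension `w` such that `R` is
finite over `L`. Let `C = (2 (M + 1)) ^ q (4 (M + 1)) ^ ((M + 1) (M + 2) / 2)`. If
`C k [R : L] < ∏ δ i` then `h⁰ (W, Ω^n) ≥ k`; so `H⁰ (W, (Ω¹) ^ ⊗ n) ≠ 0` if `C [R : L] < ∏ δ i`. -/
theorem result :
    (∀ (M n q m : ℕ) (K : Type) [Field K] [Algebra ℂ K]
      (F : Fin q → MvPolynomial (Fin (M + 2)) ℂ) (δ : Fin q → ℕ) (x : Fin (M + 2) → K),
      SmoothCI F δ x → 1 ≤ n → Algebra.trdeg ℂ K = n → n + q = M + 1 → m + M + 2 = ∑ i, δ i →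
      CutOut n m δ x) ∧
    ∀ (M n q m w : ℕ) (K R L : Type) [Field K] [Algebra ℂ K] [Field R] [Algebra ℂ R]
      [Algebra K R] [IsScalarTower ℂ K R] [Field L] [Algebra ℂ L] [Algebra.EssFiniteType ℂ L]
      [Algebra L R] [IsScalarTower ℂ L R] [FiniteDimensional L R] (x : Fin (M + 2) → K)
      (δ : Fin q → ℕ), 1 ≤ n → CutOut n m δ x → Algebra.trdeg ℂ L = w →
      (∀ k : ℕ, (2 * (M + 1)) ^ q * ((4 * (M + 1)) ^ ((M + 1) * (M + 2) / 2) *
        (k * Module.finrank L R)) < ∏ i, δ i → HasForms L w n k) ∧
      ((2 * (M + 1)) ^ q * ((4 * (M + 1)) ^ ((M + 1) * (M + 2) / 2) *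
        Module.finrank L R) < ∏ i, δ i → ¬ NoTensors L w n) := by
  refine ⟨fun M n q m K _ _ F δ x h hn hK hq hm => ?_, ?_⟩
  · obtain ⟨ω₀, hω₀⟩ := fCIA M n q m K F δ x h hn hK hq hm
    refine ⟨h.one, h.gen, hK, hm.ge, ⟨F, fun i => (h.hom i).totalDegree_le,
      Pool.Agent.U598.PS.comp_of_smoothCI h⟩, ω₀, hω₀.pl, hω₀.ne, fun f => ?_⟩
    have h1 : (∏ k, X (f k) : MvPolynomial (Fin (M + 2)) ℂ).IsHomogeneous m := by
      have h2 := IsHomogeneous.prod Finset.univ (fun k : Fin m =>
        (X (f k) : MvPolynomial (Fin (M + 2)) ℂ)) (fun _ => 1) fun k _ => isHomogeneous_X ℂ (f k)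
      rwa [Finset.sum_const, Finset.card_univ, Fintype.card_fin, smul_eq_mul, mul_one] at h2
    have h2 := hω₀.reg _ h1
    have h3 : aeval x (∏ k, X (f k) : MvPolynomial (Fin (M + 2)) ℂ) = ∏ k, x (f k) := by
      rw [map_prod]
      exact Finset.prod_congr rfl fun k _ => aeval_X _ _
    rwa [h3] at h2
  · intro M n q m w K R L _ _ _ _ _ _ _ _ _ _ _ _ x δ hn h hL
    obtain ⟨ω₀, hpl, hne, hreg⟩ := h.forms
    obtain ⟨F, hF, hcomp⟩ := h.component
    have hess := ess_of_gen h.gen
    have hk : ∀ k : ℕ, (2 * (M + 1)) ^ q * ((4 * (M + 1)) ^ ((M + 1) * (M + 2) / 2) *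
        (k * Module.finrank L R)) < ∏ i, δ i → HasForms L w n k := by
      intro k hr
      obtain ⟨B, hB⟩ : ∃ B, B = k * Module.finrank L R + 1 := ⟨_, rfl⟩
      refine Pool.Agent.U598.PS.forms_k (B := B) (R := R) h.gen h.dim hpl hne hreg
        (fun Ω _ _ S lam hS hlam hSB => Pool.Agent.U598.PS.inx (p := M + 1) (Nat.le_add_left 1 M)
          h.dim hpl hne h.one (fun f P hP => (hreg f).2 P hP) h.gen h.sum hF hcomp S hS lam hlam ?_)
        fTNF fTRS fKGP hn hL (by omega)
      refine lt_of_le_of_lt ?_ hr
      exact Nat.mul_le_mul_left _ (Nat.mul_le_mul_left _ (by omega))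
    refine ⟨hk, fun hr hno => ?_⟩
    obtain ⟨η, h1, h2⟩ := hk 1 (by rwa [one_mul])
    apply h1.ne_zero 0
    have h3 := hno (η 0).toMultilinearMap (h2 0)
    ext D
    exact DFunLike.congr_fun h3 D

end Pool.Agent.Results.MP_4329d7_ag.FormsDegreeOrder
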