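import Pool.Agent.U188.MF.Sym

/-!
# Varieties without symmetric differentials and families of rational maps

`X` is a smooth projective variety over the complex numbers, of dimension `w`, with function field `K`.
`p / q` is a rational map `f` of the projective line over `K` of degree `d ≥ 2` (a family of rational
maps parametrized by an open subset of `X`), and `prePer d p q` is the set of its preperiodic points in
`P^1(K)`.

**The moduli fibration** `X ⇢ Y` of `f` is given by the function field `E` of its base `Y`
(`ModuliFibration d p q E`): its general fibres are irreducible, `f` is conjugate over `K` to a map over
`E`, its preperiodic points descend too, and `E` is contained in the algebraic closure of every field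
over which `f` is defined up to conjugation. Its base has the dimension `v`, the variation of `f`
(`IsVariation`). `f` is isotrivial if it is conjugate over an algebraic closure of `K` to a map with
constant coefficients.

`HolSym ω`: `ω` is a holomorphic symmetric differential of degree `m` on `X`, an element of
`H^0 (X, S^m Ω^1)`, a subspace of `H^0 (X, (Ω^1)^{⊗ m})`. In terms of the function field: a symmetric
multilinear function of `m` rational vector fields, whose values on the vector fields which are regular
at a place of `K` are regular there (`DerReg v D`: the derivation `D` maps the valuation ring of `v` into
itself); this is the same as to be regular on `X`.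

**The theorem.** There is a number `B` which only depends on `d` such that for all `X` and all `f` with
at least `B` preperiodic points in `P^1(K)` the moduli fibration exists, `Y` is a point or of general
type, and the following holds.

* If `D` is a rational vector field on `X` with `ω (D, ..., D) = 0` for all holomorphic symmetric
  differentials `ω` of positive degree, then `D` is tangent to the fibres of `X ⇢ Y` (`D y = 0` for
  `y ∈ E`).
* If `X` has no nonzero holomorphic symmetric differentials of positive degree, in particular if
  `H^0 (X, (Ω^1)^{⊗ m}) = 0` for all `m > 0`, then `Y` is a point and `f` is isotrivial.

So the varieties `X` with vanishing tensor differentials share this property of the rationally connected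
varieties, and the statement of the problem holds for all `X` which carry a map `f` that is not
isotrivial and has at least `B(d)` preperiodic points in `P^1(K)`: they have nonzero holomorphic
symmetric differentials (and are not rationally connected).

Proof. The library theorems `kernel` (for a vector field which is not tangent to the fibres there is a
holomorphic symmetric differential which does not vanish on it), `fibration`, and `alg_of_der_zero` of
`Pool/Agent/Q103/VR`; new here (`Pool/Agent/U188/MF`): the uniqueness of the moduli fibration, which
gives one fibration for both, and the consequences for varieties without symmetric differentials.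
-/

set_option autoImplicit false

namespace Pool.Agent.Results.MP_4329d7_ag.ModuliTensors

open Polynomial FF
open Pool.Agent.W602.GT
open Pool.Agent.Q103.EC (prePer Isotrivial)
open Pool.Agent.Q103.VR
open Pool.Agent.U188.MF (HolSym)

/-- **Vanishing of the symmetric differentials and the moduli fibration.** -/
theorem result (d : ℕ) (hd : 2 ≤ d) : ∃ B : ℕ, ∀ (K : Type) [Field K] [Algebra ℂ K] (w : ℕ),
    Algebra.trdeg ℂ K = w → ∀ p q : K[X], IsCoprime p q → max p.natDegree q.natDegree = d →
    (B : ℕ∞) ≤ (prePer d p q).encard →
    ∃ (E : IntermediateField ℂ K) (v : ℕ), ModuliFibration d p q E ∧ v ≤ w ∧
      Algebra.trdeg ℂ E = v ∧ IsVariation ℂ d p q v ∧ (1 ≤ v → GeneralType ℂ E v) ∧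
      (∀ D : Derivation ℂ K K, (∀ (m : ℕ) (ω : MultilinearMap K
        (fun _ : Fin m => Derivation ℂ K K) K), 1 ≤ m → HolSym ω → ω (fun _ => D) = 0) →
          ∀ y ∈ E, D y = 0) ∧
      ((∀ (m : ℕ) (ω : MultilinearMap K (fun _ : Fin m => Derivation ℂ K K) K), 1 ≤ m →
        HolSym ω → ω = 0) → v = 0 ∧ Isotrivial ℂ d p q) :=
  Pool.Agent.U188.MF.sym d hd

end Pool.Agent.Results.MP_4329d7_ag.ModuliTensors
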